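import Pool.Agent.Helper58.CP.Stmts

/-!
# Directions of the darts of a triangulation with radii (block D of project QR)
-/

namespace QD28

open CP Finset Classical

noncomputable section

variable {D V F : Type} [Fintype D] [Fintype V] [Fintype F]

lemma vt_face (m : LM D V F) (d : D) : m.vt (m.face d) = m.vt (m.opp d) := by
  simp [LM.face, m.vt_rot]

lemma fc_face' (m : LM D V F) (d : D) : m.fc (m.face d) = m.fc d := by
  simpa [LM.face] using m.fc_face d

lemma face_opp (m : LM D V F) (d : D) : m.face (m.opp d) = m.rot d := by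
  simp [LM.face, m.opp_opp]

lemma vt_ne1 (m : LM D V F) (hT : m.Tri) (d : D) : m.vt (m.face d) ≠ m.vt d := by
  rw [vt_face]; exact (hT.noloop d).symm

lemma vt_ne2 (m : LM D V F) (hT : m.Tri) (d : D) : m.vt (m.face (m.face d)) ≠ m.vt d := by
  intro h
  have h1 := vt_ne1 m hT (m.face (m.face d))
  rw [hT.f3] at h1
  exact h1 h.symm

lemma exists_c (m : LM D V F) (hT : m.Tri) (A : Type) [AddCommGroup A] (a : D → A)
    (ha : ∀ d, a d + a (m.face d) + a (m.face (m.face d)) = 0) :
    ∃ c : D → A, ∀ d, c (m.face d) = c d + a (m.face d) := by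
  obtain ⟨s, hs⟩ := m.fc_surj.hasRightInverse
  refine ⟨fun d => if d = s (m.fc d) then 0 else if d = m.face (s (m.fc d)) then a d
    else - a (m.face d), fun d => ?_⟩
  simp only [fc_face']
  have hd := hT.fib (s (m.fc d)) d (hs (m.fc d)).symm
  generalize s (m.fc d) = e at hd
  have n1 : m.face e ≠ e := fun h => vt_ne1 m hT e (by rw [h])
  have n2 : m.face (m.face e) ≠ e := fun h => vt_ne2 m hT e (by rw [h])
  have n3 : m.face (m.face e) ≠ m.face e := fun h => vt_ne1 m hT (m.face e) (by rw [h])
  have hae := ha e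
  rcases hd with rfl | rfl | rfl
  · simp [n1]
  · have : - a e = a (m.face e) + a (m.face (m.face e)) := by
      rw [eq_comm, ← sub_eq_zero]
      rw [← hae]; abel
    simp [n1, n2, n3, hT.f3, this]
  · simp [n2, n3, hT.f3]

theorem st_DIR (h1 : ST_EXD) (h2 : ST_ANG) : ST_DIR := by
  intro D V F _ _ _ m o R hT hR
  -- the turning at the tail of an outer dart
  let b : D → Real.Angle := fun e => - (Real.pi : Real.Angle) +
    ∑ d ∈ (univ.filter (fun d => m.vt d = m.vt e)).erase e, ((m.angd R d : ℝ) : Real.Angle)
  let a : D → Real.Angle := fun d => if m.fc d ≠ m.fc o then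
      ((Real.pi - m.angd R d : ℝ) : Real.Angle)
    else if d = o then - (b (m.face o) + b (m.face (m.face o))) else b d
  have n1 : m.face o ≠ o := fun h => vt_ne1 m hT o (by rw [h])
  have n2 : m.face (m.face o) ≠ o := fun h => vt_ne2 m hT o (by rw [h])
  have ain : ∀ d, m.fc d ≠ m.fc o → a d = ((Real.pi - m.angd R d : ℝ) : Real.Angle) := by
    intro d hd
    simp only [a, if_pos hd]
  have hao : a o = - (b (m.face o) + b (m.face (m.face o))) := by simp [a]
  have ha1 : a (m.face o) = b (m.face o) := by simp [a, fc_face', n1]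
  have ha2 : a (m.face (m.face o)) = b (m.face (m.face o)) := by simp [a, fc_face', n2]
  have ha : ∀ d, a d + a (m.face d) + a (m.face (m.face d)) = 0 := by
    intro d
    by_cases hd : m.fc d = m.fc o
    · rcases hT.fib o d hd with rfl | rfl | rfl
      · rw [hao, ha1, ha2]; abel
      · rw [hT.f3, hao, ha1, ha2]; abel
      · rw [hT.f3, hao, ha1, ha2]; abel
    · rw [ain d hd, ain (m.face d) (by rw [fc_face']; exact hd),
        ain (m.face (m.face d)) (by rw [fc_face', fc_face']; exact hd)]
      have hs := (h2 (R (m.vt d)) (R (m.v1 d)) (R (m.v2 d)) (hR.pos _) (hR.pos _) (hR.pos _)).2.2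
      have e1 : m.angd R d = ang (R (m.vt d)) (R (m.v1 d)) (R (m.v2 d)) := rfl
      have e2 : m.angd R (m.face d) = ang (R (m.v1 d)) (R (m.v2 d)) (R (m.vt d)) := by
        simp only [LM.angd, LM.v1, LM.v2, hT.f3]
      have e3 : m.angd R (m.face (m.face d)) = ang (R (m.v2 d)) (R (m.vt d)) (R (m.v1 d)) := by
        simp only [LM.angd, LM.v1, LM.v2, hT.f3]
      rw [e1, e2, e3, ← Real.Angle.coe_add, ← Real.Angle.coe_add]
      have : (Real.pi - ang (R (m.vt d)) (R (m.v1 d)) (R (m.v2 d)) +
          (Real.pi - ang (R (m.v1 d)) (R (m.v2 d)) (R (m.vt d))) +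
          (Real.pi - ang (R (m.v2 d)) (R (m.vt d)) (R (m.v1 d)))) = 2 * Real.pi := by linarith
      rw [this, Real.Angle.coe_two_pi]
  obtain ⟨c, hc⟩ := exists_c m hT Real.Angle a ha
  have hpp : (Real.pi : Real.Angle) + (Real.pi : Real.Angle) = 0 := by
    rw [← Real.Angle.coe_add, ← two_mul, Real.Angle.coe_two_pi]
  -- the sums around the vertices
  have hin : ∀ d, m.fc d ≠ m.fc o → a d + (Real.pi : Real.Angle) =
      - ((m.angd R d : ℝ) : Real.Angle) := by
    intro d hd
    rw [ain d hd, Real.Angle.coe_sub]
    have : (Real.pi : Real.Angle) - ((m.angd R d : ℝ) : Real.Angle) + (Real.pi : Real.Angle) =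
      ((Real.pi : Real.Angle) + (Real.pi : Real.Angle)) - ((m.angd R d : ℝ) : Real.Angle) := by abel
    rw [this, hpp, zero_sub]
  have hout : ∀ e, m.fc e = m.fc o → e ≠ o →
      ∑ d with m.vt d = m.vt e, (a d + (Real.pi : Real.Angle)) = 0 := by
    intro e he heo
    have hmem : e ∈ univ.filter (fun d => m.vt d = m.vt e) := by simp
    rw [← Finset.add_sum_erase _ _ hmem]
    have hae : a e = b e := by simp [a, he, heo]
    rw [hae]
    have hrest : ∑ d ∈ (univ.filter (fun d => m.vt d = m.vt e)).erase e,
        (a d + (Real.pi : Real.Angle)) = ∑ d ∈ (univ.filter (fun d => m.vt d = m.vt e)).erase e,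
        (- ((m.angd R d : ℝ) : Real.Angle)) := by
      refine Finset.sum_congr rfl fun d hd => hin d ?_
      rw [Finset.mem_erase, Finset.mem_filter] at hd
      intro hdo
      rcases hT.fib e d (hdo.trans he.symm) with h | h | h
      · exact hd.1 h
      · exact vt_ne1 m hT e (by rw [← h]; exact hd.2.2)
      · exact vt_ne2 m hT e (by rw [← h]; exact hd.2.2)
    rw [hrest, Finset.sum_neg_distrib]
    simp only [b]
    abel
  have hvert : ∀ v, v ≠ m.vt o → ∑ d with m.vt d = v, (a d + (Real.pi : Real.Angle)) = 0 := by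
    intro v hv
    by_cases hov : m.outer o v
    · rcases hov with h | h | h
      · exact absurd h hv
      · rw [h]
        exact hout (m.face o) (fc_face' m o) n1
      · rw [h]
        exact hout (m.face (m.face o)) (by rw [fc_face', fc_face']) n2
    · have h3 : ∑ d with m.vt d = v, (a d + (Real.pi : Real.Angle)) =
          ∑ d with m.vt d = v, (- ((m.angd R d : ℝ) : Real.Angle)) := by
        refine Finset.sum_congr rfl fun d hd => hin d ?_
        rw [Finset.mem_filter] at hd
        intro hdo
        apply hov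
        rcases hT.fib o d hdo with h | h | h
        · left; rw [← hd.2, h]
        · right; left; rw [← hd.2, h]; rfl
        · right; right; rw [← hd.2, h]; rfl
      rw [h3, Finset.sum_neg_distrib]
      have h4 : ∑ d with m.vt d = v, ((m.angd R d : ℝ) : Real.Angle) =
          ((∑ d with m.vt d = v, m.angd R d : ℝ) : Real.Angle) := by
        exact (map_sum Real.Angle.coeHom (fun d => m.angd R d)
          (univ.filter (fun d => m.vt d = v))).symm
      rw [h4, hR.sum v hov, Real.Angle.coe_two_pi, neg_zero]
  have hsum : ∀ v, v ≠ m.vt o →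
      ∑ d with m.vt d = v, (c d - c (m.opp d) + (Real.pi : Real.Angle)) = 0 := by
    intro v hv
    have hre : ∀ g : D → Real.Angle, ∑ d with m.vt d = v, g (m.rot d) = ∑ d with m.vt d = v, g d := by
      intro g
      refine Finset.sum_bij (fun d _ => m.rot d) ?_ ?_ ?_ ?_
      · intro d hd
        simpa [m.vt_rot] using hd
      · intro d _ d' _ h
        exact m.rot.injective h
      · intro d hd
        refine ⟨m.rot.symm d, ?_, by simp⟩
        rw [Finset.mem_filter] at hd ⊢
        refine ⟨mem_univ _, ?_⟩
        rw [← m.vt_rot, Equiv.apply_symm_apply]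
        exact hd.2
      · intro d _; rfl
    have h5 : ∑ d with m.vt d = v, (c d - c (m.opp d) + (Real.pi : Real.Angle)) =
        ∑ d with m.vt d = v, (c (m.rot d) - c (m.opp d) + (Real.pi : Real.Angle)) := by
      rw [Finset.sum_add_distrib, Finset.sum_sub_distrib, Finset.sum_add_distrib,
        Finset.sum_sub_distrib, hre c]
    rw [h5]
    have h6 : ∑ d with m.vt d = v, (c (m.rot d) - c (m.opp d) + (Real.pi : Real.Angle)) =
        ∑ d with m.vt d = v, (a (m.rot d) + (Real.pi : Real.Angle)) := by
      refine Finset.sum_congr rfl fun d _ => ?_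
      have := hc (m.opp d)
      rw [face_opp] at this
      rw [this]; abel
    rw [h6, hre (fun d => a d + (Real.pi : Real.Angle))]
    exact hvert v hv
  obtain ⟨g, hg⟩ := h1 D V F m Real.Angle (fun d => c d - c (m.opp d) + (Real.pi : Real.Angle))
    (m.vt o) (by
      intro d
      simp only [m.opp_opp]
      rw [eq_neg_iff_add_eq_zero]
      have : c (m.opp d) - c d + (Real.pi : Real.Angle) + (c d - c (m.opp d) + (Real.pi : Real.Angle))
        = (Real.pi : Real.Angle) + (Real.pi : Real.Angle) := by abel
      rw [this, hpp]) hsum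
  refine ⟨fun d => c d + g (m.fc d), fun d => ?_, fun d hd => ?_⟩
  · have h7 := hg d
    have h8 : g (m.fc (m.opp d)) = g (m.fc d) + (c d - c (m.opp d) + (Real.pi : Real.Angle)) := by
      rw [h7]; abel
    simp only
    rw [h8]; abel
  · simp only [fc_face']
    rw [hc d, ain (m.face d) (by rw [fc_face']; exact hd)]
    abel

end

end QD28
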